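import Pool.Agent.W488.IX.Stm
import Pool.Agent.W439.IW.Dual

/-! Project IX, part FRZ: the frozen statement S06751 from `S_IW 2`. -/

set_option autoImplicit false

namespace Pool.Agent.W58.IX.Frz

open MeasureTheory Set Filter Topology
open Pool.Agent.W488.IW Pool.Agent.W488.IX

theorem main (h2 : S_IW 2) (hd : S_PV) :
    ∀ p : ℝ, 1 < p → ∀ f : ℂ → ℂ, ContDiff ℝ 1 f → HasCompactSupport f →
      ∫ z, ‖(1 / 2 : ℂ) * (fderiv ℝ f z 1 + Complex.I * fderiv ℝ f z Complex.I)‖ ^ p
        ≤ (max p (p / (p - 1)) - 1) ^ p *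
          ∫ z, ‖(1 / 2 : ℂ) * (fderiv ℝ f z 1 - Complex.I * fderiv ℝ f z Complex.I)‖ ^ p := by
  intro p hp f hf hc
  have hp1 : (0 : ℝ) < p - 1 := by linarith
  rcases le_or_gt 2 p with h | h
  · have hm : max p (p / (p - 1)) = p := by
      apply max_eq_left
      rw [div_le_iff₀ hp1]
      nlinarith
    rw [hm]
    exact h2 p h f hf hc
  · have hm : max p (p / (p - 1)) = p / (p - 1) := by
      apply max_eq_right
      rw [le_div_iff₀ hp1]
      nlinarith
    have e : p / (p - 1) - 1 = 1 / (p - 1) := by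
      field_simp
      ring
    rw [hm, e]
    exact Pool.Agent.W439.IW.Dual.main 2 hd h2 le_rfl p hp (by norm_num; linarith) f hf hc

end Pool.Agent.W58.IX.Frz
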